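import Mathlib

/-! # MP_00c2e7_nt: the powers of two `k` with `k ^ 4 - 1 ∣ 2 ^ k - 1` -/

set_option autoImplicit false

namespace Pool.Agent.Results.MP_00c2e7_nt.PowersOfTwo

theorem result (k m : ℕ) (hk : 1 < k) (hkm : k = 2 ^ m) (h : k ^ 4 - 1 ∣ 2 ^ k - 1) :
    ∃ n : ℕ, 2 ≤ n ∧ k = 2 ^ 2 ^ n := by
  subst hkm
  have e1 : (2 ^ m) ^ 4 = 2 ^ (4 * m) := by rw [← pow_mul, mul_comm]
  rw [e1] at h
  have hg := Nat.pow_sub_one_gcd_pow_sub_one 2 (4 * m) (2 ^ m)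
  rw [Nat.gcd_eq_left h] at hg
  have hm0 : m ≠ 0 := by rintro rfl; simp at hk
  have h5 : 2 ^ (4 * m) = 2 ^ (Nat.gcd (4 * m) (2 ^ m)) := by
    have a1 : 1 ≤ 2 ^ (4 * m) := Nat.one_le_two_pow
    have a2 : 1 ≤ 2 ^ (Nat.gcd (4 * m) (2 ^ m)) := Nat.one_le_two_pow
    omega
  have h6 := Nat.pow_right_injective (le_refl 2) h5
  have h7 : 4 * m ∣ 2 ^ m := by rw [h6]; exact Nat.gcd_dvd_right _ _
  obtain ⟨n, -, hn⟩ := (Nat.dvd_prime_pow Nat.prime_two).1 ((Dvd.intro_left 4 rfl).trans h7)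
  refine ⟨n, ?_, by rw [hn]⟩
  by_contra hc
  have : n = 0 ∨ n = 1 := by omega
  rcases this with rfl | rfl
  · rw [hn] at h7; revert h7; decide
  · rw [hn] at h7; revert h7; decide

end Pool.Agent.Results.MP_00c2e7_nt.PowersOfTwo
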