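import Mathlib

/-!
# MP_00c2e7_nt: restrictions on the solutions of `k^4 - 1 ∣ 2^k - 1`
-/

set_option autoImplicit false

namespace Pool.Agent.Results.MP_00c2e7_nt.WieferichAndFour

theorem mod_eight (n : ℕ) : n ≠ 0 → (∀ q : ℕ, q.Prime → q ∣ n → q % 8 = 1) → n % 8 = 1 := by
  induction n using Nat.strong_induction_on with
  | _ n ih =>
    intro h0 h
    rcases eq_or_ne n 1 with rfl | h1
    · rfl
    have hp := Nat.minFac_prime h1
    obtain ⟨m, hm⟩ := Nat.minFac_dvd n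
    have hm0 : m ≠ 0 := by rintro rfl; apply h0; rw [hm]; simp
    have hlt : m < n := by
      have h2 := hp.two_le
      calc m < 2 * m := by omega
        _ ≤ n.minFac * m := Nat.mul_le_mul_right _ h2
        _ = n := hm.symm
    have h3 := ih m hlt hm0 (fun q hq hqm => h q hq (hqm.trans ⟨n.minFac, by rw [mul_comm]; exact hm⟩))
    have h4 := h _ hp (Nat.minFac_dvd n)
    rw [hm, Nat.mul_mod, h3, h4]

theorem four_dvd (k : ℕ) (hk : 1 < k) (h : k ^ 4 - 1 ∣ 2 ^ k - 1) : 4 ∣ k := by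
  have h16 : 1 < k ^ 4 := Nat.one_lt_pow (by norm_num) hk
  have hodd : ¬ 2 ∣ 2 ^ k - 1 := by
    have h2 : 2 ∣ 2 ^ k := dvd_pow_self 2 (by omega)
    have h3 : 0 < 2 ^ k := by positivity
    omega
  have heven : 2 ∣ k := by
    by_contra hk2
    apply hodd
    refine dvd_trans ?_ h
    have h5 : ¬ 2 ∣ k ^ 4 := fun h6 => hk2 (Nat.prime_two.dvd_of_dvd_pow h6)
    omega
  obtain ⟨m, rfl⟩ := heven
  by_contra h4
  have hm : m % 2 = 1 := by omega
  obtain ⟨N, hN⟩ : ∃ N, N = (2 * m) ^ 2 + 1 := ⟨_, rfl⟩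
  have hN8 : N % 8 = 5 := by
    have h7 : m % 8 = 1 ∨ m % 8 = 3 ∨ m % 8 = 5 ∨ m % 8 = 7 := by omega
    rw [hN]
    rcases h7 with h8 | h8 | h8 | h8 <;> simp [Nat.add_mod, Nat.pow_mod, Nat.mul_mod, h8]
  have hNd : N ∣ 2 ^ (2 * m) - 1 := by
    refine dvd_trans ?_ h
    refine ⟨(2 * m) ^ 2 - 1, ?_⟩
    have h9 : 1 ≤ (2 * m) ^ 2 := Nat.one_le_pow _ _ (by omega)
    rw [hN]
    obtain ⟨a, ha⟩ := Nat.exists_eq_add_of_le h9
    have h10 : (2 * m) ^ 4 = ((2 * m) ^ 2) ^ 2 := by ring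
    rw [h10, ha]
    have h11 : (1 + a) ^ 2 = 1 + (1 + a + 1) * a := by ring
    rw [h11]
    simp
  have hN0 : N ≠ 0 := by omega
  obtain ⟨q, hq, hqN, hq8⟩ : ∃ q : ℕ, q.Prime ∧ q ∣ N ∧ q % 8 ≠ 1 := by
    by_contra hcon
    push Not at hcon
    have := mod_eight N hN0 hcon
    omega
  haveI := Fact.mk hq
  have hsq : ((2 * m : ℕ) : ZMod q) ^ 2 = -1 := by
    have h12 : ((N : ℕ) : ZMod q) = 0 := (ZMod.natCast_eq_zero_iff _ _).2 hqN
    rw [hN] at h12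
    push_cast at h12 ⊢
    linear_combination h12
  have h34 : q % 4 ≠ 3 := ZMod.mod_four_ne_three_of_sq_eq_neg_one hsq
  have hq2 : q ≠ 2 := by
    rintro rfl
    have := Nat.mod_mod_of_dvd N (show 2 ∣ 8 by norm_num)
    omega
  have hqodd : q % 2 = 1 := hq.eq_two_or_odd.resolve_left hq2
  have hq5 : q % 8 = 5 := by omega
  have h2ne : (2 : ZMod q) ≠ 0 := by
    intro h13
    have : ((2 : ℕ) : ZMod q) = 0 := by exact_mod_cast h13
    rw [ZMod.natCast_eq_zero_iff] at this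
    exact hq2 ((Nat.prime_dvd_prime_iff_eq hq Nat.prime_two).1 this)
  have hns : ¬ IsSquare (2 : ZMod q) := by
    rw [ZMod.exists_sq_eq_two_iff hq2]
    omega
  have hm1 : (2 : ZMod q) ^ (q / 2) = -1 := by
    rcases ZMod.pow_div_two_eq_neg_one_or_one q h2ne with h14 | h14
    · exact absurd ((ZMod.euler_criterion q h2ne).2 h14) hns
    · exact h14
  have h1k : (2 : ZMod q) ^ (2 * m) = 1 := by
    have h15 : q ∣ 2 ^ (2 * m) - 1 := hqN.trans hNd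
    have h16 : (((2 ^ (2 * m) - 1 : ℕ)) : ZMod q) = 0 := (ZMod.natCast_eq_zero_iff _ _).2 h15
    rw [Nat.cast_sub (Nat.one_le_two_pow)] at h16
    push_cast at h16
    linear_combination h16
  obtain ⟨j, hj⟩ : ∃ j, q / 2 = 2 * (2 * j + 1) := ⟨q / 8, by omega⟩
  have e1 : (2 : ZMod q) ^ (q / 2 * m) = -1 := by
    rw [pow_mul, hm1]
    exact Odd.neg_one_pow (Nat.odd_iff.2 hm)
  have e2 : (2 : ZMod q) ^ (q / 2 * m) = 1 := by
    rw [hj, show 2 * (2 * j + 1) * m = (2 * m) * (2 * j + 1) by ring, pow_mul, h1k, one_pow]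
  have e3 : (2 : ZMod q) = 0 := by linear_combination e1 - e2
  exact h2ne e3

theorem wieferich (k : ℕ) (hk : 1 < k) (h : k ^ 4 - 1 ∣ 2 ^ k - 1) (p : ℕ) (hp : p.Prime)
    (hpp : p ^ 2 ∣ k ^ 4 - 1) : p ^ 2 ∣ 2 ^ (p - 1) - 1 := by
  have h16 : 1 < k ^ 4 := Nat.one_lt_pow (by norm_num) hk
  have hpk : ¬ p ∣ k := by
    intro h1
    have h2 : p ∣ k ^ 4 := dvd_pow h1 (by norm_num)
    have h3 : p ∣ k ^ 4 - 1 := (dvd_pow_self p (by norm_num)).trans hpp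
    have h4 : p ∣ k ^ 4 - (k ^ 4 - 1) := Nat.dvd_sub h2 h3
    rw [show k ^ 4 - (k ^ 4 - 1) = 1 by omega] at h4
    exact hp.one_lt.ne' (Nat.dvd_one.1 h4)
  have h1k : (2 : ZMod (p ^ 2)) ^ k = 1 := by
    have h16 : (((2 ^ k - 1 : ℕ)) : ZMod (p ^ 2)) = 0 := (ZMod.natCast_eq_zero_iff _ _).2 (hpp.trans h)
    rw [Nat.cast_sub (Nat.one_le_two_pow)] at h16
    push_cast at h16
    linear_combination h16
  have hcop : Nat.Coprime 2 (p ^ 2) := by
    rw [Nat.Prime.coprime_iff_not_dvd Nat.prime_two]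
    intro h2
    have h3 : 2 ∣ 2 ^ k - 1 := (h2.trans hpp).trans h
    have h4 : 2 ∣ 2 ^ k := dvd_pow_self 2 (by omega)
    have h5 : 0 < 2 ^ k := by positivity
    omega
  have htot : (2 : ZMod (p ^ 2)) ^ (p * (p - 1)) = 1 := by
    have h6 := Nat.ModEq.pow_totient hcop
    rw [Nat.totient_prime_pow hp (by norm_num)] at h6
    have h7 := (ZMod.natCast_eq_natCast_iff _ _ _).2 h6
    simpa using h7
  have d1 := orderOf_dvd_of_pow_eq_one h1k
  have d2 := orderOf_dvd_of_pow_eq_one htot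
  have hc : Nat.Coprime (orderOf (2 : ZMod (p ^ 2))) p := by
    rw [Nat.coprime_comm, Nat.Prime.coprime_iff_not_dvd hp]
    exact fun h8 => hpk (h8.trans d1)
  have d3 : orderOf (2 : ZMod (p ^ 2)) ∣ p - 1 := hc.dvd_of_dvd_mul_left d2
  have h9 : (2 : ZMod (p ^ 2)) ^ (p - 1) = 1 := orderOf_dvd_iff_pow_eq_one.1 d3
  rw [← ZMod.natCast_eq_zero_iff, Nat.cast_sub (Nat.one_le_two_pow)]
  push_cast
  rw [h9, sub_self]

/-- A solution `k > 1` of `k^4 - 1 ∣ 2^k - 1` is a multiple of four, and `k^4 - 1` is squarefree up to Wieferich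
primes. -/
theorem result : ∀ k : ℕ, 1 < k → k ^ 4 - 1 ∣ 2 ^ k - 1 →
    4 ∣ k ∧ ∀ p : ℕ, p.Prime → p ^ 2 ∣ k ^ 4 - 1 → p ^ 2 ∣ 2 ^ (p - 1) - 1 :=
  fun k hk h => ⟨four_dvd k hk h, wieferich k hk h⟩

end Pool.Agent.Results.MP_00c2e7_nt.WieferichAndFour
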